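import Pool.Agent.Helper54.SAW.Arr

set_option autoImplicit false

/-!
# The square root bound for the number of zeros of the exploration (block A3)
-/

namespace Pool.Agent.Helper46.SAW

open Finset Pool.Agent.Helper54.SAW

variable {ι : Type*} [Fintype ι] [DecidableEq ι]

omit [Fintype ι] [DecidableEq ι] in
theorem expl_append (w : ι → ℕ) (d : ℤ) (a b : List (ι × Bool)) :
    expl w d (a ++ b) = expl w (expl w d a) b := by
  induction a generalizing d with
  | nil => rfl
  | cons x a ih => simp only [List.cons_append, expl]; exact ih _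

/-- indicator: `z` is a zero of the exploration of `l` -/
noncomputable def iz (w : ι → ℕ) (l : List (ι × Bool)) (z : ℕ) : ℝ :=
  if expl w 0 (l.take z) = 0 then 1 else 0

open Classical in
/-- indicator: no zero of the exploration of `l` in `[1, q]` -/
noncomputable def nz (w : ι → ℕ) (l : List (ι × Bool)) (q : ℕ) : ℝ :=
  if (∀ z, 1 ≤ z → z ≤ q → expl w 0 (l.take z) ≠ 0) then 1 else 0

omit [Fintype ι] [DecidableEq ι] in
theorem iz_nonneg (w : ι → ℕ) (l : List (ι × Bool)) (z : ℕ) : 0 ≤ iz w l z := by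
  unfold iz; split_ifs <;> norm_num

omit [Fintype ι] [DecidableEq ι] in
theorem nz_nonneg (w : ι → ℕ) (l : List (ι × Bool)) (z : ℕ) : 0 ≤ nz w l z := by
  unfold nz; split_ifs <;> norm_num

omit [Fintype ι] [DecidableEq ι] in
theorem iz_zero (w : ι → ℕ) (l : List (ι × Bool)) : iz w l 0 = 1 := by
  simp [iz, expl]

omit [Fintype ι] [DecidableEq ι] in
theorem iz_congr (w : ι → ℕ) {l l' : List (ι × Bool)} {z : ℕ} (h : l.take z = l'.take z) :
    iz w l z = iz w l' z := by
  unfold iz; rw [h]

omit [Fintype ι] [DecidableEq ι] in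
theorem nz_congr (w : ι → ℕ) {l l' : List (ι × Bool)} {q : ℕ} (h : l.take q = l'.take q) :
    nz w l q = nz w l' q := by
  have h' : ∀ z, z ≤ q → l.take z = l'.take z := by
    intro z hz
    have e1 : l.take z = (l.take q).take z := by rw [List.take_take, min_eq_left hz]
    have e2 : l'.take z = (l'.take q).take z := by rw [List.take_take, min_eq_left hz]
    rw [e1, e2, h]
  unfold nz
  congr 1
  apply propext
  constructor
  · intro H z h1 h2; rw [← h' z h2]; exact H z h1 h2
  · intro H z h1 h2; rw [h' z h2]; exact H z h1 h2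

omit [Fintype ι] [DecidableEq ι] in
theorem Kz_add_one (w : ι → ℕ) (m : ℕ) (l : List (ι × Bool)) :
    ((Kz w m l : ℝ) + 1) = ∑ z ∈ range (m + 1), iz w l z := by
  rw [Finset.sum_range_succ', iz_zero]
  congr 1
  unfold Kz
  rw [Finset.card_filter]
  push_cast
  have : (Finset.Icc 1 m) = (range m).image (· + 1) := by
    ext x
    simp only [Finset.mem_Icc, Finset.mem_image, Finset.mem_range]
    constructor
    · rintro ⟨h1, h2⟩; exact ⟨x - 1, by omega, by omega⟩
    · rintro ⟨y, h1, h2⟩; omega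
  rw [this, Finset.sum_image (by intro a _ b _ h; simpa using h)]
  rfl

omit [Fintype ι] [DecidableEq ι] in
/-- pointwise bound -/
theorem pair_count (w : ι → ℕ) (m : ℕ) (l : List (ι × Bool)) :
    ∑ q ∈ range m, ∑ z ∈ range (m + 1), nz w (l.drop z) q * iz w l z ≤ 2 * (m : ℝ) := by
  classical
  let P : ℕ × ℕ → Prop := fun p =>
    (∀ y, 1 ≤ y → y ≤ p.1 → expl w 0 ((l.drop p.2).take y) ≠ 0) ∧ expl w 0 (l.take p.2) = 0
  have hprod : ∀ q z : ℕ, nz w (l.drop z) q * iz w l z = if P (q, z) then (1 : ℝ) else 0 := by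
    intro q z
    unfold nz iz
    by_cases h1 : (∀ y, 1 ≤ y → y ≤ q → expl w 0 ((l.drop z).take y) ≠ 0) <;>
      by_cases h2 : expl w 0 (l.take z) = 0
    · rw [if_pos h1, if_pos h2, if_pos (show P (q, z) from ⟨h1, h2⟩), one_mul]
    · rw [if_pos h1, if_neg h2, if_neg (show ¬ P (q, z) from fun h => h2 h.2), mul_zero]
    · rw [if_neg h1, if_neg (show ¬ P (q, z) from fun h => h1 h.1), zero_mul]
    · rw [if_neg h1, if_neg (show ¬ P (q, z) from fun h => h1 h.1), zero_mul]
  have hsum : ∑ q ∈ range m, ∑ z ∈ range (m + 1), nz w (l.drop z) q * iz w l z =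
      ((((range m ×ˢ range (m + 1)).filter P).card : ℕ) : ℝ) := by
    rw [Finset.card_filter]
    push_cast
    rw [Finset.sum_product]
    exact Finset.sum_congr rfl fun q _ => Finset.sum_congr rfl fun z _ => hprod q z
  rw [hsum]
  have hle : ((range m ×ˢ range (m + 1)).filter P).card ≤ (range (2 * m)).card := by
    apply Finset.card_le_card_of_injOn (fun p => p.1 + p.2)
    · intro p hp
      rw [Finset.mem_coe, Finset.mem_filter, Finset.mem_product, Finset.mem_range,
        Finset.mem_range] at hp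
      rw [Finset.mem_coe, Finset.mem_range]
      show p.1 + p.2 < 2 * m
      omega
    · have key : ∀ q z q' z' : ℕ, z < z' → q + z = q' + z' →
          expl w 0 (l.take z) = 0 → expl w 0 (l.take z') = 0 →
          (∀ y, 1 ≤ y → y ≤ q → expl w 0 ((l.drop z).take y) ≠ 0) → False := by
        intro q z q' z' hlt he h0 h0' hn
        apply hn (z' - z) (by omega) (by omega)
        have : l.take z' = l.take z ++ (l.drop z).take (z' - z) := by
          rw [← List.take_add, Nat.add_sub_cancel' hlt.le]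
        rw [this, expl_append, h0] at h0'
        exact h0'
      rintro ⟨q, z⟩ hp ⟨q', z'⟩ hp' he
      rw [Finset.mem_coe, Finset.mem_filter] at hp hp'
      replace hp := hp.2
      replace hp' := hp'.2
      simp only [] at he
      rcases lt_trichotomy z z' with h | h | h
      · exact (key q z q' z' h he hp.2 hp'.2 hp.1).elim
      · subst h
        have : q = q' := by omega
        rw [this]
      · exact (key q' z' q z h he.symm hp'.2 hp.2 hp'.1).elim
  rw [Finset.card_range] at hle
  calc ((((range m ×ˢ range (m + 1)).filter P).card : ℕ) : ℝ) ≤ ((2 * m : ℕ) : ℝ) := by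
        exact_mod_cast hle
    _ = 2 * (m : ℝ) := by push_cast; ring

/-- the gap function `min (first zero) m` -/
noncomputable def gap (w : ι → ℕ) (m : ℕ) (l : List (ι × Bool)) : ℝ :=
  ∑ q ∈ range m, nz w l q

omit [Fintype ι] [DecidableEq ι] in
theorem gap_nonneg (w : ι → ℕ) (m : ℕ) (l : List (ι × Bool)) : 0 ≤ gap w m l :=
  Finset.sum_nonneg fun _ _ => nz_nonneg _ _ _

theorem card_supp {q : ℕ} {T : Finset ι} {a : List (ι × Bool)} (h : a ∈ parr T q) :
    (supp a).card = q ∧ supp a ⊆ T := by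
  rw [mem_parr] at h
  refine ⟨?_, h.2.2⟩
  unfold supp
  rw [List.toFinset_card_of_nodup h.2.1, List.length_map, h.1]

/-- shift of a zero from the front to the back -/
theorem sum_iz_back (w : ι → ℕ) (S : Finset ι) (z : ℕ) (hz : z ≤ S.card) :
    ∑ b ∈ arr S, iz w b z = ∑ b ∈ arr S, iz w (b.drop (S.card - z)) z := by
  rw [← sum_arr_rotate S (S.card - z)]
  apply Finset.sum_congr rfl
  intro b hb
  have hl := length_arr hb
  apply iz_congr
  rw [List.rotate_eq_drop_append_take (by omega)]
  rw [List.take_append_of_le_length (by rw [List.length_drop]; omega)]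

theorem wald_one (w : ι → ℕ) (S : Finset ι) (m q : ℕ) (hq : q < m) (hS : 2 * m ≤ S.card)
    (κ : ℝ)
    (H : ∀ T' : Finset ι, T' ⊆ S → S.card ≤ T'.card + m →
      κ * ((arr T').card : ℝ) ≤ ∑ l ∈ arr T', ((Kz w m l : ℝ) + 1)) :
    κ * ∑ l ∈ arr S, nz w l q ≤
      ∑ l ∈ arr S, ∑ z ∈ range (m + 1), nz w (l.drop z) q * iz w l z := by
  have hqS : q ≤ S.card := by omega
  -- first step
  have e1 : ∑ l ∈ arr S, nz w l q = ∑ a ∈ parr S q, ∑ b ∈ arr (S \ supp a), nz w a q := by
    rw [← sum_arr_split S q hqS (fun a _ => nz w a q)]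
    apply Finset.sum_congr rfl
    intro l _
    apply nz_congr
    rw [List.take_take, min_self]
  have e2 : κ * ∑ l ∈ arr S, nz w l q ≤
      ∑ a ∈ parr S q, ∑ b ∈ arr (S \ supp a), nz w a q * ((Kz w m b : ℝ) + 1) := by
    rw [e1, Finset.mul_sum]
    apply Finset.sum_le_sum
    intro a ha
    obtain ⟨hc, hsub⟩ := card_supp ha
    rw [Finset.sum_const, nsmul_eq_mul, ← Finset.mul_sum]
    have := H (S \ supp a) Finset.sdiff_subset (by
      rw [Finset.card_sdiff_of_subset hsub, hc]; omega)
    calc κ * (((arr (S \ supp a)).card : ℝ) * nz w a q)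
        = nz w a q * (κ * ((arr (S \ supp a)).card : ℝ)) := by ring
      _ ≤ _ := mul_le_mul_of_nonneg_left this (nz_nonneg _ _ _)
  refine e2.trans (le_of_eq ?_)
  -- second step
  have e3 : ∀ a ∈ parr S q, ∑ b ∈ arr (S \ supp a), nz w a q * ((Kz w m b : ℝ) + 1) =
      ∑ b ∈ arr (S \ supp a), ∑ z ∈ range (m + 1),
        nz w a q * iz w (b.drop (S.card - q - z)) z := by
    intro a ha
    obtain ⟨hc, hsub⟩ := card_supp ha
    simp_rw [Kz_add_one, Finset.mul_sum]
    rw [Finset.sum_comm, Finset.sum_comm (s := arr (S \ supp a))]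
    apply Finset.sum_congr rfl
    intro z hz
    rw [Finset.mem_range] at hz
    rw [← Finset.mul_sum, ← Finset.mul_sum]
    congr 1
    have hcard : (S \ supp a).card = S.card - q := by
      rw [Finset.card_sdiff_of_subset hsub, hc]
    rw [sum_iz_back w (S \ supp a) z (by omega), hcard]
  rw [Finset.sum_congr rfl e3]
  rw [← sum_arr_split S q hqS
    (fun a b => ∑ z ∈ range (m + 1), nz w a q * iz w (b.drop (S.card - q - z)) z)]
  rw [Finset.sum_comm, Finset.sum_comm (s := arr S) (t := range (m + 1))]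
  apply Finset.sum_congr rfl
  intro z hz
  rw [Finset.mem_range] at hz
  rw [← sum_arr_rotate S (S.card - z) (fun l => nz w (l.drop z) q * iz w l z)]
  apply Finset.sum_congr rfl
  intro l hl
  have hlen := length_arr hl
  have hrot : l.rotate (S.card - z) = l.drop (S.card - z) ++ l.take (S.card - z) :=
    List.rotate_eq_drop_append_take (by omega)
  have hdl : (l.drop (S.card - z)).length = z := by rw [List.length_drop]; omega
  rw [hrot]
  congr 1
  · apply nz_congr
    rw [List.drop_append_of_le_length (by omega)]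
    rw [List.drop_of_length_le (by omega), List.nil_append, List.take_take, List.take_take]
    congr 1
    omega
  · apply iz_congr
    rw [List.drop_drop, List.take_append_of_le_length (by omega)]
    congr 2
    omega

theorem wald (w : ι → ℕ) (S : Finset ι) (m : ℕ) (hS : 2 * m ≤ S.card)
    (κ : ℝ)
    (H : ∀ T' : Finset ι, T' ⊆ S → S.card ≤ T'.card + m →
      κ * ((arr T').card : ℝ) ≤ ∑ l ∈ arr T', ((Kz w m l : ℝ) + 1)) :
    κ * ∑ l ∈ arr S, gap w m l ≤ 2 * (m : ℝ) * ((arr S).card : ℝ) := by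
  unfold gap
  rw [Finset.sum_comm, Finset.mul_sum]
  calc ∑ q ∈ range m, κ * ∑ l ∈ arr S, nz w l q
      ≤ ∑ q ∈ range m, ∑ l ∈ arr S, ∑ z ∈ range (m + 1), nz w (l.drop z) q * iz w l z := by
        apply Finset.sum_le_sum
        intro q hq
        exact wald_one w S m q (Finset.mem_range.mp hq) hS κ H
    _ = ∑ l ∈ arr S, ∑ q ∈ range m, ∑ z ∈ range (m + 1), nz w (l.drop z) q * iz w l z :=
        Finset.sum_comm
    _ ≤ ∑ l ∈ arr S, 2 * (m : ℝ) := Finset.sum_le_sum fun l _ => pair_count w m l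
    _ = 2 * (m : ℝ) * ((arr S).card : ℝ) := by rw [Finset.sum_const, nsmul_eq_mul]; ring

omit [Fintype ι] [DecidableEq ι] in
/-- renewal: the gaps after the zeros cover `[0, m)` -/
theorem renewal (w : ι → ℕ) (m : ℕ) (l : List (ι × Bool)) :
    (m : ℝ) ≤ ∑ z ∈ range (m + 1), iz w l z * gap w m (l.drop z) := by
  classical
  have h1 : ∀ s ∈ range m, (1 : ℝ) ≤ ∑ z ∈ range (m + 1),
      (if z ≤ s then iz w l z * nz w (l.drop z) (s - z) else 0) := by
    intro s hs
    rw [Finset.mem_range] at hs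
    -- last zero ≤ s
    have hne : ((range (s + 1)).filter (fun z => expl w 0 (l.take z) = 0)).Nonempty :=
      ⟨0, by simp [expl]⟩
    set z := ((range (s + 1)).filter (fun z => expl w 0 (l.take z) = 0)).max' hne with hzdef
    have hz := Finset.max'_mem _ hne
    rw [← hzdef, Finset.mem_filter, Finset.mem_range] at hz
    have hlast : ∀ y, y ≤ s → expl w 0 (l.take y) = 0 → y ≤ z := by
      intro y hy h0
      apply Finset.le_max'
      rw [Finset.mem_filter, Finset.mem_range]
      exact ⟨by omega, h0⟩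
    have hterm : (if z ≤ s then iz w l z * nz w (l.drop z) (s - z) else 0) = (1 : ℝ) := by
      rw [if_pos (by omega)]
      unfold iz nz
      rw [if_pos hz.2, if_pos, one_mul]
      intro y hy1 hy2 h0
      have : l.take (z + y) = l.take z ++ (l.drop z).take y := by rw [← List.take_add]
      have h2 := hlast (z + y) (by omega) (by rw [this, expl_append, hz.2]; exact h0)
      omega
    rw [← hterm]
    apply Finset.single_le_sum (f := fun z => (if z ≤ s then iz w l z * nz w (l.drop z) (s - z)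
      else (0 : ℝ)))
    · intro y _
      split_ifs
      · exact mul_nonneg (iz_nonneg _ _ _) (nz_nonneg _ _ _)
      · exact le_rfl
    · rw [Finset.mem_range]; omega
  calc (m : ℝ) = ∑ s ∈ range m, (1 : ℝ) := by simp
    _ ≤ ∑ s ∈ range m, ∑ z ∈ range (m + 1),
      (if z ≤ s then iz w l z * nz w (l.drop z) (s - z) else 0) := Finset.sum_le_sum h1
    _ = ∑ z ∈ range (m + 1), ∑ s ∈ range m,
      (if z ≤ s then iz w l z * nz w (l.drop z) (s - z) else 0) := Finset.sum_comm
    _ ≤ _ := by
      apply Finset.sum_le_sum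
      intro z _
      unfold gap
      rw [Finset.mul_sum, ← Finset.sum_filter]
      -- reindex s = z + q
      have : (∑ s ∈ (range m).filter (fun s => z ≤ s), iz w l z * nz w (l.drop z) (s - z)) =
          ∑ q ∈ ((range m).filter (fun s => z ≤ s)).image (fun s => s - z),
            iz w l z * nz w (l.drop z) q := by
        rw [Finset.sum_image]
        intro a ha b hb hab
        rw [Finset.mem_coe, Finset.mem_filter, Finset.mem_range] at ha hb
        simp only [] at hab
        omega
      rw [this]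
      apply Finset.sum_le_sum_of_subset_of_nonneg
      · intro q hq
        rw [Finset.mem_image] at hq
        obtain ⟨s, hs, rfl⟩ := hq
        rw [Finset.mem_filter, Finset.mem_range] at hs
        rw [Finset.mem_range]; omega
      · intro q _ _
        exact mul_nonneg (iz_nonneg _ _ _) (nz_nonneg _ _ _)

omit [Fintype ι] [DecidableEq ι] in
theorem Kz_mono (w : ι → ℕ) {a b : ℕ} (h : a ≤ b) (l : List (ι × Bool)) : Kz w a l ≤ Kz w b l := by
  unfold Kz
  apply Finset.card_le_card
  intro z hz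
  rw [Finset.mem_filter, Finset.mem_Icc] at hz ⊢
  exact ⟨⟨hz.1.1, hz.1.2.trans h⟩, hz.2⟩

omit [Fintype ι] [DecidableEq ι] in
theorem Kz_take (w : ι → ℕ) (a : ℕ) (l : List (ι × Bool)) : Kz w a (l.take a) = Kz w a l := by
  unfold Kz
  congr 1
  apply Finset.filter_congr
  intro z hz
  rw [Finset.mem_Icc] at hz
  rw [List.take_take, min_eq_left hz.2]

/-- truncated weight of a rank -/
noncomputable def wt (X0 : ℕ) (r : ℕ) : ℝ := if r < X0 then 1 / Real.sqrt ((r : ℝ) + 1) else 0

theorem wt_nonneg (X0 r : ℕ) : 0 ≤ wt X0 r := by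
  unfold wt; split_ifs
  · positivity
  · exact le_rfl

omit [Fintype ι] [DecidableEq ι] in
/-- pointwise inequality -/
theorem pointwise (w : ι → ℕ) (m X0 : ℕ) (hm : 1 ≤ m) (l : List (ι × Bool)) :
    1 / Real.sqrt ((Kz w m l : ℝ) + 1) ≤ 1 / Real.sqrt ((X0 : ℝ) + 1) +
      (1 / (m : ℝ)) * ∑ z ∈ range (m + 1), iz w l z * wt X0 (Kz w z l) * gap w m (l.drop z) := by
  have hm0 : (0 : ℝ) < m := by exact_mod_cast hm
  by_cases hK : X0 ≤ Kz w m l
  · have h1 : 1 / Real.sqrt ((Kz w m l : ℝ) + 1) ≤ 1 / Real.sqrt ((X0 : ℝ) + 1) := by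
      apply one_div_le_one_div_of_le
      · positivity
      · apply Real.sqrt_le_sqrt
        have : (X0 : ℝ) ≤ Kz w m l := by exact_mod_cast hK
        linarith
    have h2 : 0 ≤ (1 / (m : ℝ)) * ∑ z ∈ range (m + 1),
        iz w l z * wt X0 (Kz w z l) * gap w m (l.drop z) := by
      apply mul_nonneg (by positivity)
      apply Finset.sum_nonneg
      intro z _
      exact mul_nonneg (mul_nonneg (iz_nonneg _ _ _) (wt_nonneg _ _)) (gap_nonneg _ _ _)
    linarith
  · push Not at hK
    have h1 : 0 ≤ 1 / Real.sqrt ((X0 : ℝ) + 1) := by positivity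
    have h2 : (1 / Real.sqrt ((Kz w m l : ℝ) + 1)) * (m : ℝ) ≤ ∑ z ∈ range (m + 1),
        iz w l z * wt X0 (Kz w z l) * gap w m (l.drop z) := by
      calc (1 / Real.sqrt ((Kz w m l : ℝ) + 1)) * (m : ℝ)
          ≤ (1 / Real.sqrt ((Kz w m l : ℝ) + 1)) *
            ∑ z ∈ range (m + 1), iz w l z * gap w m (l.drop z) :=
            mul_le_mul_of_nonneg_left (renewal w m l) (by positivity)
        _ = ∑ z ∈ range (m + 1), iz w l z * (1 / Real.sqrt ((Kz w m l : ℝ) + 1)) *
            gap w m (l.drop z) := by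
            rw [Finset.mul_sum]
            apply Finset.sum_congr rfl
            intro z _
            ring
        _ ≤ _ := by
            apply Finset.sum_le_sum
            intro z hz
            rw [Finset.mem_range] at hz
            apply mul_le_mul_of_nonneg_right _ (gap_nonneg _ _ _)
            apply mul_le_mul_of_nonneg_left _ (iz_nonneg _ _ _)
            have hmono := Kz_mono w (show z ≤ m by omega) l
            unfold wt
            rw [if_pos (by omega)]
            apply one_div_le_one_div_of_le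
            · positivity
            · apply Real.sqrt_le_sqrt
              have : (Kz w z l : ℝ) ≤ Kz w m l := by exact_mod_cast hmono
              linarith
    have h3 : 1 / Real.sqrt ((Kz w m l : ℝ) + 1) ≤ (1 / (m : ℝ)) * ∑ z ∈ range (m + 1),
        iz w l z * wt X0 (Kz w z l) * gap w m (l.drop z) := by
      rw [one_div_mul_eq_div, le_div_iff₀ hm0]
      exact h2
    linarith

omit [Fintype ι] [DecidableEq ι] in
/-- the rank is injective on zeros -/
theorem rank_sum (w : ι → ℕ) (m X0 : ℕ) (l : List (ι × Bool)) :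
    ∑ z ∈ range (m + 1), iz w l z * wt X0 (Kz w z l) ≤
      ∑ i ∈ range X0, 1 / Real.sqrt ((i : ℝ) + 1) := by
  classical
  have e : ∀ z ∈ range (m + 1), iz w l z * wt X0 (Kz w z l) =
      if (expl w 0 (l.take z) = 0 ∧ Kz w z l < X0) then 1 / Real.sqrt ((Kz w z l : ℝ) + 1)
        else 0 := by
    intro z _
    unfold iz wt
    by_cases h1 : expl w 0 (l.take z) = 0 <;> by_cases h2 : Kz w z l < X0 <;> simp [h1, h2]
  rw [Finset.sum_congr rfl e, ← Finset.sum_filter]
  have hinj : Set.InjOn (fun z => Kz w z l)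
      ((range (m + 1)).filter (fun z => expl w 0 (l.take z) = 0 ∧ Kz w z l < X0)) := by
    have key : ∀ a b : ℕ, a < b → expl w 0 (l.take b) = 0 → Kz w a l < Kz w b l := by
      intro a b hab hb
      unfold Kz
      apply Finset.card_lt_card
      rw [Finset.ssubset_iff_of_subset]
      · refine ⟨b, ?_, ?_⟩
        · rw [Finset.mem_filter, Finset.mem_Icc]; exact ⟨⟨by omega, le_rfl⟩, hb⟩
        · rw [Finset.mem_filter, Finset.mem_Icc]; intro h; omega
      · intro z hz
        rw [Finset.mem_filter, Finset.mem_Icc] at hz ⊢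
        exact ⟨⟨hz.1.1, by omega⟩, hz.2⟩
    intro a ha b hb hab
    rw [Finset.mem_coe, Finset.mem_filter] at ha hb
    replace ha := ha.2
    replace hb := hb.2
    simp only [] at hab
    rcases lt_trichotomy a b with h | h | h
    · have := key a b h hb.1; omega
    · exact h
    · have := key b a h ha.1; omega
  have e2 : ∑ z ∈ (range (m + 1)).filter (fun z => expl w 0 (l.take z) = 0 ∧ Kz w z l < X0),
      1 / Real.sqrt ((Kz w z l : ℝ) + 1) =
      ∑ i ∈ ((range (m + 1)).filter (fun z => expl w 0 (l.take z) = 0 ∧ Kz w z l < X0)).image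
        (fun z => Kz w z l), 1 / Real.sqrt ((i : ℝ) + 1) := by
    rw [Finset.sum_image hinj]
  rw [e2]
  apply Finset.sum_le_sum_of_subset_of_nonneg
  · intro i hi
    rw [Finset.mem_image] at hi
    obtain ⟨z, hz, rfl⟩ := hi
    rw [Finset.mem_filter] at hz
    rw [Finset.mem_range]; exact hz.2.2
  · intro i _ _; positivity

theorem sum_inv_sqrt (n : ℕ) : ∑ i ∈ range n, 1 / Real.sqrt ((i : ℝ) + 1) ≤ 2 * Real.sqrt n := by
  induction n with
  | zero => simp
  | succ n ih =>
    rw [Finset.sum_range_succ]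
    push_cast
    have hn : (0 : ℝ) ≤ n := Nat.cast_nonneg n
    have ha := Real.sq_sqrt hn
    have hb := Real.sq_sqrt (show (0 : ℝ) ≤ (n : ℝ) + 1 by linarith)
    have ha0 := Real.sqrt_nonneg (n : ℝ)
    have hb0 : 0 < Real.sqrt ((n : ℝ) + 1) := Real.sqrt_pos.mpr (by linarith)
    have hab : Real.sqrt (n : ℝ) ≤ Real.sqrt ((n : ℝ) + 1) := Real.sqrt_le_sqrt (by linarith)
    have : 1 / Real.sqrt ((n : ℝ) + 1) ≤ 2 * Real.sqrt ((n : ℝ) + 1) - 2 * Real.sqrt n := by
      rw [div_le_iff₀ hb0]
      nlinarith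
    linarith

theorem KSqrt (w : ι → ℕ) (T : Finset ι) (m : ℕ) (hm : 1 ≤ m) (h3 : 3 * m ≤ T.card)
    (κ : ℝ) (hκ : 0 < κ)
    (H : ∀ T' : Finset ι, T' ⊆ T → T.card ≤ T'.card + 2 * m →
      κ * ((arr T').card : ℝ) ≤ ∑ l ∈ arr T', ((Kz w m l : ℝ) + 1)) :
    ∑ l ∈ arr T, 1 / Real.sqrt ((Kz w m l : ℝ) + 1) ≤
      (5 / Real.sqrt κ) * ((arr T).card : ℝ) := by
  have hm0 : (0 : ℝ) < m := by exact_mod_cast hm
  set X0 : ℕ := ⌊κ⌋₊ with hX0
  -- fixed z
  have hz : ∀ z ∈ range (m + 1),
      ∑ l ∈ arr T, iz w l z * wt X0 (Kz w z l) * gap w m (l.drop z) ≤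
      (2 * (m : ℝ) / κ) * ∑ l ∈ arr T, iz w l z * wt X0 (Kz w z l) := by
    intro z hz
    rw [Finset.mem_range] at hz
    have hzT : z ≤ T.card := by omega
    have e1 : ∑ l ∈ arr T, iz w l z * wt X0 (Kz w z l) * gap w m (l.drop z) =
        ∑ a ∈ parr T z, ∑ b ∈ arr (T \ supp a), iz w a z * wt X0 (Kz w z a) * gap w m b := by
      rw [← sum_arr_split T z hzT (fun a b => iz w a z * wt X0 (Kz w z a) * gap w m b)]
      apply Finset.sum_congr rfl
      intro l _
      rw [Kz_take, iz_congr w (show (l.take z).take z = l.take z by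
        rw [List.take_take, min_self])]
    have e2 : ∑ l ∈ arr T, iz w l z * wt X0 (Kz w z l) =
        ∑ a ∈ parr T z, ∑ b ∈ arr (T \ supp a), iz w a z * wt X0 (Kz w z a) := by
      rw [← sum_arr_split T z hzT (fun a _ => iz w a z * wt X0 (Kz w z a))]
      apply Finset.sum_congr rfl
      intro l _
      rw [Kz_take, iz_congr w (show (l.take z).take z = l.take z by
        rw [List.take_take, min_self])]
    rw [e1, e2, Finset.mul_sum]
    apply Finset.sum_le_sum
    intro a ha
    obtain ⟨hc, hsub⟩ := card_supp ha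
    have hcard : (T \ supp a).card = T.card - z := by
      rw [Finset.card_sdiff_of_subset hsub, hc]
    rw [← Finset.mul_sum, Finset.sum_const, nsmul_eq_mul]
    have hw := wald w (T \ supp a) m (by omega) κ (by
      intro T' hT' hcT'
      exact H T' (hT'.trans Finset.sdiff_subset) (by omega))
    have hw' : ∑ b ∈ arr (T \ supp a), gap w m b ≤
        (2 * (m : ℝ) / κ) * ((arr (T \ supp a)).card : ℝ) := by
      rw [div_mul_eq_mul_div, le_div_iff₀ hκ]
      linarith
    calc iz w a z * wt X0 (Kz w z a) * ∑ b ∈ arr (T \ supp a), gap w m b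
        ≤ iz w a z * wt X0 (Kz w z a) * ((2 * (m : ℝ) / κ) * ((arr (T \ supp a)).card : ℝ)) :=
          mul_le_mul_of_nonneg_left hw' (mul_nonneg (iz_nonneg _ _ _) (wt_nonneg _ _))
      _ = _ := by ring
  -- the sum
  have hX0le : (X0 : ℝ) ≤ κ := Nat.floor_le hκ.le
  have hX0lt : κ < (X0 : ℝ) + 1 := Nat.lt_floor_add_one κ
  have hsκ : 0 < Real.sqrt κ := Real.sqrt_pos.mpr hκ
  have hcard0 : (0 : ℝ) ≤ ((arr T).card : ℝ) := Nat.cast_nonneg _
  calc ∑ l ∈ arr T, 1 / Real.sqrt ((Kz w m l : ℝ) + 1)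
      ≤ ∑ l ∈ arr T, (1 / Real.sqrt ((X0 : ℝ) + 1) + (1 / (m : ℝ)) *
        ∑ z ∈ range (m + 1), iz w l z * wt X0 (Kz w z l) * gap w m (l.drop z)) :=
        Finset.sum_le_sum fun l _ => pointwise w m X0 hm l
    _ = ((arr T).card : ℝ) * (1 / Real.sqrt ((X0 : ℝ) + 1)) + (1 / (m : ℝ)) *
        ∑ z ∈ range (m + 1), ∑ l ∈ arr T,
          iz w l z * wt X0 (Kz w z l) * gap w m (l.drop z) := by
        rw [Finset.sum_add_distrib, Finset.sum_const, nsmul_eq_mul, ← Finset.mul_sum,
          Finset.sum_comm]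
    _ ≤ ((arr T).card : ℝ) * (1 / Real.sqrt ((X0 : ℝ) + 1)) + (1 / (m : ℝ)) *
        ∑ z ∈ range (m + 1), (2 * (m : ℝ) / κ) * ∑ l ∈ arr T, iz w l z * wt X0 (Kz w z l) := by
        gcongr with z hz'
        exact hz z hz'
    _ = ((arr T).card : ℝ) * (1 / Real.sqrt ((X0 : ℝ) + 1)) + (2 / κ) *
        ∑ l ∈ arr T, ∑ z ∈ range (m + 1), iz w l z * wt X0 (Kz w z l) := by
        rw [← Finset.mul_sum, Finset.sum_comm]
        congr 1
        field_simp
    _ ≤ ((arr T).card : ℝ) * (1 / Real.sqrt ((X0 : ℝ) + 1)) + (2 / κ) *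
        ∑ l ∈ arr T, 2 * Real.sqrt (X0 : ℝ) := by
        have : ∀ l ∈ arr T, ∑ z ∈ range (m + 1), iz w l z * wt X0 (Kz w z l) ≤
            2 * Real.sqrt (X0 : ℝ) := fun l _ => (rank_sum w m X0 l).trans (sum_inv_sqrt X0)
        gcongr with l hl
        exact this l hl
    _ = (1 / Real.sqrt ((X0 : ℝ) + 1) + 4 * Real.sqrt (X0 : ℝ) / κ) * ((arr T).card : ℝ) := by
        rw [Finset.sum_const, nsmul_eq_mul]; ring
    _ ≤ (5 / Real.sqrt κ) * ((arr T).card : ℝ) := by
        apply mul_le_mul_of_nonneg_right _ hcard0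
        have h1 : 1 / Real.sqrt ((X0 : ℝ) + 1) ≤ 1 / Real.sqrt κ :=
          one_div_le_one_div_of_le hsκ (Real.sqrt_le_sqrt hX0lt.le)
        have h2 : 4 * Real.sqrt (X0 : ℝ) / κ ≤ 4 / Real.sqrt κ := by
          rw [div_le_div_iff₀ hκ hsκ]
          have hx : Real.sqrt (X0 : ℝ) ≤ Real.sqrt κ := Real.sqrt_le_sqrt hX0le
          have hk := Real.mul_self_sqrt hκ.le
          nlinarith [mul_le_mul_of_nonneg_right hx hsκ.le]
        have h3 : (5 : ℝ) / Real.sqrt κ = 1 / Real.sqrt κ + 4 / Real.sqrt κ := by ring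
        rw [h3]
        linarith

end Pool.Agent.Helper46.SAW
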